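import Pool.Agent.Y716.D.Main

/-!
# The Hasse principle for 100% of the intersections of two quadrics in `ℙ⁴`

Among the smooth complete intersections `q 0 = q 1 = 0` of two quadrics in `ℙ⁴` (these are del Pezzo
surfaces of degree four), with integral quadratic forms with coefficients bounded by `H`, which have
points over the real numbers and over all the `p`-adic fields, a proportion tending to `1` as
`H → ∞` has a rational point.
-/

set_option autoImplicit false

namespace Pool.Agent.Results.MP_1f1b65_nt.RandomDelPezzoSurfaces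

/-- The pairs of quadratic forms in five variables whose coefficients are integers of absolute value
at most `H`. -/
def Pairs (H : ℕ) : Set (Fin 2 → MvPolynomial (Fin 5) ℤ) :=
  {q | ∀ j, (q j).IsHomogeneous 2 ∧ ∀ m, |(q j).coeff m| ≤ (H : ℤ)}

/-- The quadratic forms `q 0, q 1` define a smooth complete intersection in `ℙ⁴`: at every common
zero over a field of characteristic zero the Jacobian matrix has rank `2`, that is, no nontrivial
linear combination of the gradients of the two forms vanishes there. -/
def Smooth (q : Fin 2 → MvPolynomial (Fin 5) ℤ) : Prop :=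
  ∀ (K : Type) [Field K] [CharZero K] (x : Fin 5 → K) (l : Fin 2 → K), x ≠ 0 → l ≠ 0 →
    (∀ j, MvPolynomial.aeval x (q j) = 0) →
    ∃ i, ∑ j, l j * MvPolynomial.aeval x (MvPolynomial.pderiv i (q j)) ≠ 0

/-- The intersection `q 0 = q 1 = 0` in `ℙ⁴` has a rational point. -/
def HasRationalPoint (q : Fin 2 → MvPolynomial (Fin 5) ℤ) : Prop :=
  ∃ x : Fin 5 → ℚ, x ≠ 0 ∧ ∀ j, MvPolynomial.aeval x (q j) = 0

/-- The intersection `q 0 = q 1 = 0` in `ℙ⁴` has points over the real numbers and over all the
`p`-adic fields. -/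
def LocallySoluble (q : Fin 2 → MvPolynomial (Fin 5) ℤ) : Prop :=
  (∃ x : Fin 5 → ℝ, x ≠ 0 ∧ ∀ j, MvPolynomial.aeval x (q j) = 0) ∧
    ∀ (p : ℕ) [Fact p.Prime], ∃ x : Fin 5 → ℚ_[p], x ≠ 0 ∧
      ∀ j, MvPolynomial.aeval x (q j) = 0

/-- 100% of the everywhere locally soluble smooth complete intersections of two quadrics in `ℙ⁴`,
ordered by height, have a rational point. -/
theorem result :
    Filter.Tendsto (fun H : ℕ =>
      (({q | q ∈ Pairs H ∧ Smooth q ∧ HasRationalPoint q} : Set _).ncard : ℝ) /
      (({q | q ∈ Pairs H ∧ Smooth q ∧ LocallySoluble q} : Set _).ncard : ℝ))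
    Filter.atTop (nhds 1) := by
  exact Pool.Agent.Y716.D.hp_smooth_all (Fin 5) (s := 2) (by norm_num)
    (by rw [Fintype.card_fin]) (fun _ => 0) (by rw [Fintype.card_fin]; simp)

end Pool.Agent.Results.MP_1f1b65_nt.RandomDelPezzoSurfaces
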